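import Mathlib
import Pool.Agent.Helper872.RN.UnitInt
import Pool.Agent.Helper872.RN.Force
import Pool.Agent.Helper292.ForceCH
import Pool.Agent.Results.MP_547692_lc.SquaresIffContinuum

/-!
# Squares of non-null sets of cardinality `non(N)`: the statement of Q1 is independent of ZFC

(1), (2): the measure algebra which adds more than the continuum many random reals forces
`non(N) ≤ |K| < cov(N)` for a set `K`. This implies that `non(N) ≤ |K| < 𝔠` for every locally
compact Polish group, and that for the compact groups `G = F ^ ℕ`, `F` a finite nontrivial group,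
the square of every set `S ⊆ G` of cardinality `non(N)` is naively Haar null.
(3), (4): the continuum hypothesis can be forced, and it implies that in every uncountable
locally compact Polish group `G` there is a set `S` of cardinality `non(N)` with `S × S` not
naively Haar null.

`PhiHolds P K`, `CHHolds P`, `OmegaOnePreserved P` are sentences of the forcing language; a sentence
is the set of the conditions which force it. `PhiHolds P K` translates the proposition `PhiFor K`.
-/

set_option autoImplicit false

namespace Pool.Agent.Results.MP_547692_lc.ForcedIndependence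

open Cardinal MeasureTheory Set Topology Pool.Agent.V11242.RN
open Pool.Agent.Results.MP_547692_lc.SquaresIffContinuum (NaivelyHaarNull nonN HasGoodSquare)
open Pool.Agent.Helper872.RN (exists_not_null' exists_not_covered')

/-- `non(N) ≤ |K|` for every locally compact Polish group. -/
theorem nonN_le_of {K : Type} (h : PhiFor K) (G : Type) [Group G] [TopologicalSpace G]
    [IsTopologicalGroup G] [LocallyCompactSpace G] [PolishSpace G] [MeasurableSpace G]
    [BorelSpace G] : nonN G ≤ #K := by
  obtain ⟨K0, hK0, hint⟩ : ∃ K0 : Set G, IsCompact K0 ∧ (interior K0).Nonempty := by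
    obtain ⟨K0, h1, h2⟩ := exists_compact_mem_nhds (1 : G)
    exact ⟨K0, h1, ⟨1, mem_interior_iff_mem_nhds.2 h2⟩⟩
  set ν : Measure G := Measure.haar with hν
  have h0 : ν K0 ≠ 0 := (Measure.measure_pos_of_nonempty_interior ν hint).ne'
  have htop : ν K0 ≠ ⊤ := hK0.measure_lt_top.ne
  let μ : Measure G := ProbabilityTheory.cond ν K0
  haveI : IsProbabilityMeasure μ := ProbabilityTheory.cond_isProbabilityMeasure_of_finite h0 htop
  have hac : μ ≪ ν := ProbabilityTheory.cond_absolutelyContinuous
  haveI : Nonempty G := ⟨1⟩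
  obtain ⟨f, hf, hfμ⟩ := μ.exists_measurable_map_eq
  obtain ⟨Y, h1, h2⟩ := exists_not_null' h
  have h3 : ν (f '' Y) ≠ 0 := fun h4 => h2 (measure_mono_null (subset_preimage_image f Y)
    (Measure.preimage_null_of_map_null hf.aemeasurable (by rw [hfμ]; exact hac h4)))
  have h5 : nonN G ≤ #(f '' Y) := csInf_le' ⟨_, rfl, h3⟩
  exact h5.trans (mk_image_le.trans h1)

theorem lt_continuum {K : Type} (h : PhiFor K) : #K < 𝔠 := by
  by_contra hle
  obtain ⟨x, hx⟩ := exists_not_covered' h
    (F := Set.range fun x : unitInterval => ({x} : Set unitInterval))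
    (by rintro _ ⟨x, rfl⟩; exact measure_singleton x)
    (mk_range_le.trans ((Cardinal.mk_Icc_real (by norm_num)).le.trans (not_lt.1 hle)))
  exact hx {x} ⟨x, rfl⟩ rfl

theorem nonN_eq_of_CH (hCH : (𝔠 : Cardinal.{0}) = ℵ₁) (G : Type) [Group G] [TopologicalSpace G]
    [IsTopologicalGroup G] [LocallyCompactSpace G] [PolishSpace G] [Uncountable G]
    [MeasurableSpace G] [BorelSpace G] : nonN G = 𝔠 := by
  haveI hnb : (𝓝[≠] (1 : G)).NeBot := by
    rw [Filter.neBot_iff]
    intro h
    have h1 : IsOpen ({1} : Set G) := isOpen_singleton_iff_punctured_nhds 1 |>.2 h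
    haveI : DiscreteTopology G := discreteTopology_of_isOpen_singleton_one h1
    have h2 : Countable G := TopologicalSpace.separableSpace_iff_countable.1 inferInstance
    exact not_countable h2
  refine le_antisymm (SquaresIffContinuum.nonN_le G) ?_
  rw [hCH]
  have hne : {κ | ∃ A : Set G, #A = κ ∧ (Measure.haar : Measure G) A ≠ 0}.Nonempty :=
    ⟨_, univ, rfl, Measure.measure_univ_ne_zero.mpr (NeZero.ne _)⟩
  obtain ⟨A, h1, h2⟩ := csInf_mem hne
  change ℵ₁ ≤ nonN G
  rw [nonN, ← h1, aleph_one_le_iff]
  by_contra hlt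
  exact h2 ((Cardinal.le_aleph0_iff_set_countable.1 (not_lt.1 hlt)).measure_zero _)

/-- (1) There are a set `K` and a nonempty ccc notion of forcing `P` all of whose conditions force
the sentence `PhiFor K`. (2) Whenever `PhiFor K` holds, `non(N) ≤ |K|` for every locally compact
Polish group, `|K| < 𝔠`, and for the compact groups `F ^ ℕ`, `F` finite and nontrivial, `S × S` is
naively Haar null for every set `S` of cardinality `non(N)`. (3) There is a notion of forcing all of
whose conditions force that `ω₁` is preserved and that the continuum hypothesis holds. (4) Under the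
continuum hypothesis every uncountable locally compact Polish group has a subset `S` of cardinality
`non(N)` such that `S × S` is not naively Haar null. -/
theorem result :
    (∃ (K P : Type) (_ : Preorder P), Nonempty P ∧
      (∀ A : Set P, (∀ p ∈ A, ∀ q ∈ A, p ≠ q → ¬ ∃ r, r ≤ p ∧ r ≤ q) → A.Countable) ∧
      ∀ p : P, p ∈ PhiHolds P K) ∧
    (∀ K : Type, PhiFor K →
      (∀ (G : Type) [Group G] [TopologicalSpace G] [IsTopologicalGroup G] [LocallyCompactSpace G]
        [PolishSpace G] [MeasurableSpace G] [BorelSpace G], nonN G ≤ #K) ∧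
      #K < 𝔠 ∧
      (∀ (F : Type) [Group F] [Finite F] [Nontrivial F] [TopologicalSpace F] [DiscreteTopology F]
        [MeasurableSpace (ℕ → F)] [BorelSpace (ℕ → F)], ∀ S : Set (ℕ → F),
          #S = nonN (ℕ → F) → NaivelyHaarNull (S ×ˢ S))) ∧
    (∃ (P : Type) (_ : Preorder P), Nonempty P ∧ ∀ p : P,
      p ∈ Pool.Agent.Helper292.ForceCH.OmegaOnePreserved P ∧
      p ∈ Pool.Agent.Helper292.ForceCH.CHHolds P) ∧
    ((𝔠 : Cardinal.{0}) = ℵ₁ → ∀ (G : Type) [Group G] [TopologicalSpace G] [IsTopologicalGroup G]
      [LocallyCompactSpace G] [PolishSpace G] [Uncountable G] [MeasurableSpace G] [BorelSpace G],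
        ∃ S : Set G, #S = nonN G ∧ ¬ NaivelyHaarNull (S ×ˢ S)) := by
  refine ⟨Pool.Agent.Helper872.RN.exists_forcing, fun K h => ⟨fun G => nonN_le_of h G,
    lt_continuum h, ?_⟩, ?_, ?_⟩
  · intro F _ _ _ _ _ _ _ S hS
    haveI : PolishSpace F := inferInstance
    haveI : PolishSpace (ℕ → F) := inferInstance
    refine SquaresIffContinuum.small_square F S ?_
    rw [hS]
    exact (nonN_le_of h (ℕ → F)).trans_lt (lt_continuum h)
  · obtain ⟨P, i, h1, h2⟩ := Pool.Agent.Helper292.ForceCH.exists_forcing
    exact ⟨P, i, h1, fun p => ⟨(h2 p).1, (h2 p).2.2⟩⟩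
  · intro hCH G _ _ _ _ _ _ _ _
    exact SquaresIffContinuum.good_of_eq G (nonN_eq_of_CH hCH G)

end Pool.Agent.Results.MP_547692_lc.ForcedIndependence
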